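import Mathlib

open MeasureTheory Measure Set Filter Topology Metric
open scoped ENNReal

namespace Pool.Agent.Results.MP_4f9d30_an.Full

/-- the number with digits `f 0, f 1, ...` in base `B` -/
noncomputable def X (B : ℕ) (f : ℕ → ℕ) : ℝ := ∑' t, (f t : ℝ) / (B : ℝ) ^ (t + 1)

/-- coding map of the carpet -/
noncomputable def code (m n : ℕ) (D : Finset (ℕ × ℕ)) (ω : ℕ → D) : EuclideanSpace ℝ (Fin 2) :=
  !₂[X m fun t => (ω t).1.1, X n fun t => (ω t).1.2]

/-- Minkowski dimension of a measure -/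
noncomputable def dimM (μ : Measure (EuclideanSpace ℝ (Fin 2))) : ℝ :=
  sInf {s | 0 ≤ s ∧ ∃ C > 0, ∀ x ∈ μ.support, ∀ r ∈ Ioc (0 : ℝ) 1,
    ENNReal.ofReal (C * r ^ s) ≤ μ (closedBall x r)}

def val (B : ℕ) (f : ℕ → ℕ) : ℕ → ℕ
  | 0 => 0
  | k + 1 => B * val B f k + f k

lemma val_congr {B : ℕ} {f g : ℕ → ℕ} {k : ℕ} (h : ∀ t < k, f t = g t) : val B f k = val B g k := by
  induction k with
  | zero => rfl
  | succ k ih => rw [val, val, ih fun t ht => h t (by omega), h k (by omega)]

lemma val_inj {B : ℕ} {f g : ℕ → ℕ} (hf : ∀ t, f t < B) (hg : ∀ t, g t < B) {k : ℕ}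
    (h : val B f k = val B g k) : ∀ t < k, f t = g t := by
  induction k with
  | zero => simp
  | succ k ih =>
    have a := congrArg (· % B) h
    simp only [val, Nat.mul_add_mod, Nat.mod_eq_of_lt (hf k), Nat.mod_eq_of_lt (hg k)] at a
    rw [val, val, a] at h
    have b := ih (Nat.eq_of_mul_eq_mul_left (by have := hf 0; omega) (Nat.add_right_cancel h))
    intro t ht
    rcases Nat.lt_succ_iff_lt_or_eq.1 ht with c | rfl
    exacts [b t c, a]

lemma geo {B : ℕ} (hB : 2 ≤ B) : HasSum (fun t : ℕ => ((B : ℝ) - 1) / (B : ℝ) ^ (t + 1)) 1 := by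
  have h : (2 : ℝ) ≤ B := by exact_mod_cast hB
  have := (hasSum_geometric_of_lt_one (r := (B : ℝ)⁻¹) (by positivity)
    (inv_lt_one_of_one_lt₀ (by linarith))).mul_left (((B : ℝ) - 1) / B)
  have e : ((B : ℝ) - 1) / B * (1 - (B : ℝ)⁻¹)⁻¹ = 1 := by
    have : (B : ℝ) - 1 ≠ 0 := by linarith
    field_simp
  rw [e] at this
  refine this.congr_fun fun t => ?_
  rw [inv_pow, pow_succ]; field_simp

lemma term {B : ℕ} {a : ℕ} (h : a < B) (t : ℕ) :
    ‖(a : ℝ) / (B : ℝ) ^ (t + 1)‖ ≤ ((B : ℝ) - 1) / (B : ℝ) ^ (t + 1) := by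
  rw [Real.norm_of_nonneg (by positivity)]
  have : (a : ℝ) + 1 ≤ B := by exact_mod_cast h
  gcongr; linarith

lemma sand {B : ℕ} (hB : 2 ≤ B) {f : ℕ → ℕ} (hf : ∀ t, f t < B) (k : ℕ) :
    (val B f k : ℝ) ≤ B ^ k * X B f ∧ B ^ k * X B f ≤ val B f k + 1 := by
  have h : (2 : ℝ) ≤ B := by exact_mod_cast hB
  have s : ∀ k, Summable fun t => (f (t + k) : ℝ) / (B : ℝ) ^ (t + 1) := fun k =>
    (geo hB).summable.of_norm_bounded fun t => term (hf _) t
  have e : (B : ℝ) ^ k * X B f = val B f k + X B fun t => f (t + k) := by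
    induction k with
    | zero => simp [val]
    | succ k ih =>
      have : (B : ℝ) * X B (fun t => f (t + k)) = f k + X B fun t => f (t + (k + 1)) := by
        unfold X
        rw [(s k).tsum_eq_zero_add, mul_add, ← tsum_mul_left]
        congr 1
        · simp only [zero_add, pow_one]; field_simp
        · refine tsum_congr fun t => ?_
          rw [pow_succ _ (t + 1), add_assoc t, add_comm 1 k]; field_simp
      rw [pow_succ', mul_assoc, ih, val]; push_cast; linarith
  have a : 0 ≤ X B fun t => f (t + k) := tsum_nonneg fun t => by positivity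
  have b : X B (fun t => f (t + k)) ≤ 1 := hasSum_le (fun t => (le_abs_self _).trans (term (hf _) t))
    (s k).hasSum (geo hB)
  constructor <;> linarith

lemma X_close {B : ℕ} (hB : 2 ≤ B) {f g : ℕ → ℕ} (hf : ∀ t, f t < B) (hg : ∀ t, g t < B) {k : ℕ}
    (h : ∀ t < k, f t = g t) {r : ℝ} (hr : 1 ≤ (B : ℝ) ^ k * r) : |X B f - X B g| ≤ r := by
  have a := sand hB hf k
  have b := sand hB hg k
  rw [val_congr h] at a
  have p : (0 : ℝ) < B ^ k := by positivity
  rw [abs_le]; constructor <;> nlinarith [a.1, a.2, b.1, b.2]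

variable {m n : ℕ} {D : Finset (ℕ × ℕ)}

lemma code_cont (hm : 2 ≤ m) (hn : 2 ≤ n) (hD : ∀ d ∈ D, d.1 < m ∧ d.2 < n) :
    Continuous (code m n D) := by
  have c : ∀ (B : ℕ) (g : D → ℕ), 2 ≤ B → (∀ d, g d < B) →
      Continuous fun ω : ℕ → D => X B fun t => g (ω t) := fun B g hB hg =>
    continuous_tsum (fun t => (continuous_of_discreteTopology
      (f := fun d : D => (g d : ℝ) / (B : ℝ) ^ (t + 1))).comp (continuous_apply t))
      (geo hB).summable fun t ω => term (hg _) t
  refine (PiLp.continuous_toLp 2 _).comp (continuous_pi fun i => ?_)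
  fin_cases i
  · exact c m (fun d => d.1.1) hm fun d => (hD _ d.2).1
  · exact c n (fun d => d.1.2) hn fun d => (hD _ d.2).2

noncomputable def U {α β : Type} [MeasurableSpace β] (s : Finset α) (g : α → β) : Measure β :=
  (s.card : ℝ≥0∞)⁻¹ • ∑ a ∈ s, dirac (g a)

lemma U_prob {α β : Type} [MeasurableSpace β] {s : Finset α} (hs : s.Nonempty) (g : α → β) :
    IsProbabilityMeasure (U s g) := ⟨by
  simp only [U, Measure.smul_apply, coe_finsetSum, Finset.sum_apply, measure_univ, Finset.sum_const,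
    nsmul_eq_mul, mul_one, smul_eq_mul]
  exact ENNReal.inv_mul_cancel (by simpa using hs.ne_empty) (by simp)⟩

lemma U_ge {α β : Type} [MeasurableSpace β] {s : Finset α} (g : α → β) {a : α} (ha : a ∈ s)
    {T : Set β} (hT : g a ∈ T) : (s.card : ℝ≥0∞)⁻¹ ≤ U s g T := by
  simp only [U, Measure.smul_apply, coe_finsetSum, Finset.sum_apply, smul_eq_mul]
  refine le_mul_of_one_le_right' (le_trans ?_ (Finset.single_le_sum (fun _ _ => by simp) ha))
  exact (dirac_apply_of_mem hT).ge

noncomputable def w (k : ℕ) : ℝ := 1 / ((k + 1) * (k + 2))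

lemma w_sum : ∑' k, ENNReal.ofReal (w k) = 1 := by
  have nn : ∀ k, 0 ≤ w k := fun k => by unfold w; positivity
  have : HasSum w 1 := by
    rw [hasSum_iff_tendsto_nat_of_nonneg nn]
    have e : ∀ n, ∑ k ∈ Finset.range n, w k = 1 - 1 / ((n : ℝ) + 1) := fun n => by
      induction n with
      | zero => simp
      | succ n ih => rw [Finset.sum_range_succ, ih, w]; push_cast; field_simp; ring
    simp only [e]
    simpa using tendsto_one_div_add_atTop_nhds_zero_nat.const_sub (1 : ℝ)
  rw [← ENNReal.ofReal_tsum_of_nonneg nn this.summable, this.tsum_eq]; simp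

lemma mix (A B : Measure D) [IsProbabilityMeasure A] [IsProbabilityMeasure B] :
    ∃ ν : Measure (ℕ → D), IsProbabilityMeasure ν ∧ ν.map (fun ω t => ω (t + 1)) = ν ∧
      ∀ k l, l ≤ k → ∀ T : ℕ → Set D, ENNReal.ofReal (w k * w l / (k + 1)) *
        ∏ t ∈ Finset.range k, (if t < l then A else B) (T t) ≤ ν (Set.pi (Finset.range k) T) := by
  let q : ℕ × ℕ → ℕ → Measure D := fun p t => if t % (p.1 + 1) < p.2 then A else B
  have hq : ∀ p t, IsProbabilityMeasure (q p t) := fun p t => by
    simp only [q]; split_ifs <;> infer_instance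
  let P : ℕ × ℕ → ℕ → Measure (ℕ → D) := fun p c => infinitePi fun t => q p (t + c)
  have hP : ∀ p c, IsProbabilityMeasure (P p c) := fun p c => by simp only [P]; infer_instance
  have ms : Measurable fun (ω : ℕ → D) t => ω (t + 1) := by fun_prop
  have sh : ∀ p c, (P p c).map (fun ω t => ω (t + 1)) = P p (c + 1) := fun p c => by
    have := map_infinitePi_infinitePi_of_inj (P := fun t => q p (t + c)) (add_left_injective 1)
    simp only [add_assoc, add_comm 1 c] at this
    exact this
  let a : ℕ × ℕ → ℝ≥0∞ := fun p => ENNReal.ofReal (w p.1 * w p.2 / (p.1 + 1))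
  refine ⟨Measure.sum fun p => a p • ∑ c ∈ Finset.range (p.1 + 1), P p c, ⟨?_⟩, ?_, ?_⟩
  · simp only [sum_apply _ MeasurableSet.univ, Measure.smul_apply, coe_finsetSum, Finset.sum_apply,
      measure_univ, Finset.sum_const, Finset.card_range, nsmul_eq_mul, mul_one, smul_eq_mul]
    have : ∀ p : ℕ × ℕ, a p * ((p.1 + 1 : ℕ) : ℝ≥0∞) =
        ENNReal.ofReal (w p.1) * ENNReal.ofReal (w p.2) := fun p => by
      rw [← ENNReal.ofReal_natCast, ← ENNReal.ofReal_mul' (by positivity),
        ← ENNReal.ofReal_mul (by unfold w; positivity)]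
      congr 1; push_cast; field_simp
    simp only [this]
    rw [ENNReal.tsum_prod']
    simp only [ENNReal.tsum_mul_left, w_sum, mul_one]
  · rw [Measure.map_sum ms.aemeasurable]
    congr 1; ext1 p
    rw [Measure.map_smul, ← mapₗ_apply_of_measurable ms, _root_.map_sum]
    simp only [mapₗ_apply_of_measurable ms, sh]
    rw [Finset.sum_range_succ, Finset.sum_range_succ']
    congr 2
    simp only [P, q, Nat.add_mod_right, add_zero]
  · intro k l hl T
    refine le_trans ?_ (le_sum _ (k, l) _)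
    simp only [Measure.smul_apply, coe_finsetSum, Finset.sum_apply, smul_eq_mul]
    refine mul_le_mul_right (le_trans (le_of_eq ?_) (Finset.single_le_sum (fun _ _ => by simp)
      (Finset.mem_range.2 (Nat.succ_pos k)))) _
    rw [infinitePi_pi _ fun _ _ => MeasurableSet.of_discrete]
    refine Finset.prod_congr rfl fun t ht => ?_
    simp only [q, add_zero, Nat.mod_eq_of_lt (Nat.lt_succ_of_lt (Finset.mem_range.1 ht))]

lemma prod_if {β : Type} [CommMonoid β] (x y : β) {k l : ℕ} (h : l ≤ k) :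
    ∏ t ∈ Finset.range k, (if t < l then x else y) = x ^ l * y ^ (k - l) := by
  rw [← Finset.prod_range_mul_prod_Ico _ h, Finset.prod_congr rfl fun t ht =>
    if_pos (Finset.mem_range.1 ht), Finset.prod_congr (s₁ := Finset.Ico l k) rfl fun t ht =>
    if_neg (Finset.mem_Ico.1 ht).1.not_gt]
  simp

lemma pow_log {B : ℕ} (hB : 2 ≤ B) {x : ℝ} (hx : 0 < x) (k : ℕ) :
    ((B : ℝ) ^ k) ^ (Real.log x / Real.log B) = x ^ k := by
  rw [← Real.rpow_pow_comm (by positivity), Real.log_div_log, Real.rpow_logb (by positivity)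
    (by exact_mod_cast (show B ≠ 1 by omega)) hx]

theorem result (m n : ℕ) (hm : 2 ≤ m) (hmn : m < n) (D : Finset (ℕ × ℕ))
    (hD : ∀ d ∈ D, d.1 < m ∧ d.2 < n) (hN : 2 ≤ D.card) :
    ∃ ν : Measure (ℕ → D), IsProbabilityMeasure ν ∧ ν.map (fun ω t => ω (t + 1)) = ν ∧
      dimM (ν.map (code m n D)) = Real.log (D.image Prod.fst).card / Real.log m +
        Real.log (D.card / (D.image Prod.fst).card) / Real.log n := by
  classical
  have hn : 2 ≤ n := by omega
  set C := D.image Prod.fst
  obtain ⟨d0, hd0⟩ : D.Nonempty := Finset.card_pos.1 (by omega)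
  have hC : C.Nonempty := ⟨_, Finset.mem_image_of_mem _ hd0⟩
  have : ∀ i, ∃ d : D, i ∈ C → d.1.1 = i := fun i => by
    by_cases c : i ∈ C
    · obtain ⟨d, a, b⟩ := Finset.mem_image.1 c; exact ⟨⟨d, a⟩, fun _ => b⟩
    · exact ⟨⟨d0, hd0⟩, fun h => absurd h c⟩
  choose sec hsec using this
  haveI := U_prob (s := Finset.univ) ⟨⟨d0, hd0⟩, Finset.mem_univ _⟩ (id : D → D)
  haveI := U_prob hC sec
  obtain ⟨ν, h1, h2, h3⟩ := mix (U Finset.univ id) (U C sec)
  refine ⟨ν, h1, h2, ?_⟩
  have cc := code_cont hm hn hD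
  have M1 : (1 : ℝ) ≤ C.card := by exact_mod_cast hC.card_pos
  have MN : (C.card : ℝ) ≤ D.card := by exact_mod_cast Finset.card_image_le
  have m1 : (2 : ℝ) ≤ m := by exact_mod_cast hm
  have n1 : (m : ℝ) ≤ n := by exact_mod_cast hmn.le
  set α := Real.log C.card / Real.log m
  set β := Real.log (D.card / C.card) / Real.log n
  have α0 : 0 ≤ α := div_nonneg (Real.log_nonneg M1) (Real.log_nonneg (by linarith))
  have β0 : 0 ≤ β := div_nonneg (Real.log_nonneg ((one_le_div (by linarith)).2 MN))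
    (Real.log_nonneg (by linarith))
  have cnt : ∀ k l, l ≤ k → (D.card : ℝ) ^ l * C.card ^ (k - l) =
      ((m : ℝ) ^ k) ^ α * ((n : ℝ) ^ l) ^ β := fun k l h => by
    rw [pow_log hm (by linarith), pow_log hn (by positivity), div_pow, pow_sub₀ _ (by linarith) h]
    ring
  have d1 : ∀ (ω : ℕ → D) t, (ω t).1.1 < m := fun ω t => (hD _ (ω t).2).1
  have d2 : ∀ (ω : ℕ → D) t, (ω t).1.2 < n := fun ω t => (hD _ (ω t).2).2
  have up : ∀ ε > 0, ∃ K > 0, ∀ ω, ∀ r ∈ Ioc (0 : ℝ) 1,
      ENNReal.ofReal (K * r ^ (α + β + ε)) ≤ ν.map (code m n D) (closedBall (code m n D ω) r) := by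
    intro ε hε
    have q1 : 1 < (m : ℝ) ^ ε := Real.one_lt_rpow (by linarith) hε
    obtain ⟨K, hK⟩ := ((tendsto_pow_const_div_const_pow_of_one_lt 5 q1).comp
      (tendsto_add_atTop_nat 2)).bddAbove_range
    have hK : ∀ k : ℕ, ((k : ℝ) + 2) ^ 5 ≤ K * ((m : ℝ) ^ ε) ^ (k + 2) := fun k => by
      have := hK (mem_range_self k)
      simp only [Function.comp] at this
      rw [div_le_iff₀ (by positivity)] at this; exact_mod_cast this
    have K0 : 0 < K := (pos_iff_pos_of_mul_pos ((hK 0).trans_lt' (by positivity))).2 (by positivity)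
    refine ⟨(K * ((m : ℝ) ^ ε) ^ 2 * (2 * n) ^ (α + β + ε))⁻¹, by positivity, fun ω r hr => ?_⟩
    have r0 := hr.1
    have r1 : 1 ≤ 2 / r := by rw [le_div_iff₀ r0]; linarith [hr.2]
    obtain ⟨k, k1, k2⟩ := exists_nat_pow_near r1 (show (1 : ℝ) < m by linarith)
    obtain ⟨l, l1, l2⟩ := exists_nat_pow_near r1 (show (1 : ℝ) < n by linarith)
    have kl : l + 1 ≤ k + 1 := by
      have := (pow_lt_pow_iff_right₀ (show (1 : ℝ) < m by linarith)).1
        ((pow_le_pow_left₀ (by linarith) n1 l).trans_lt (l1.trans_lt k2))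
      omega
    have k3 : (m : ℝ) ^ (k + 1) ≤ 2 * n / r := by
      rw [pow_succ, mul_div_right_comm]; gcongr
    have l3 : (n : ℝ) ^ (l + 1) ≤ 2 * n / r := by
      rw [pow_succ, mul_div_right_comm]; gcongr
    rw [div_lt_iff₀ r0] at k2 l2
    generalize k + 1 = k at *
    generalize l + 1 = l at *
    have a1 := h3 k l kl fun t => if t < l then {ω t} else {d | d.1.1 = (ω t).1.1}
    rw [map_apply cc.measurable measurableSet_closedBall]
    refine le_trans ?_ (a1.trans (measure_mono fun η hη => ?_))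
    · have : ∏ t ∈ Finset.range k, (if t < l then ((D.card : ℝ≥0∞))⁻¹ else (C.card : ℝ≥0∞)⁻¹) ≤
          ∏ t ∈ Finset.range k, (if t < l then U Finset.univ id else U C sec)
            (if t < l then {ω t} else {d | d.1.1 = (ω t).1.1}) :=
        Finset.prod_le_prod' fun t _ => by
          split_ifs
          · simpa using U_ge (s := Finset.univ) id (Finset.mem_univ (ω t)) (T := {ω t}) rfl
          · have := Finset.mem_image_of_mem Prod.fst (ω t).2
            exact U_ge sec this (hsec _ this)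
      refine le_trans ?_ (mul_le_mul_right this _)
      rw [prod_if _ _ kl, ← ENNReal.inv_pow, ← ENNReal.inv_pow, ← ENNReal.mul_inv (by simp) (by simp),
        ← ENNReal.ofReal_natCast, ← ENNReal.ofReal_natCast C.card, ← ENNReal.ofReal_pow (by positivity),
        ← ENNReal.ofReal_pow (by positivity), ← ENNReal.ofReal_mul (by positivity),
        ← ENNReal.ofReal_inv_of_pos (by positivity), ← ENNReal.ofReal_mul' (by positivity), cnt k l kl]
      refine ENNReal.ofReal_le_ofReal ?_
      have lk : (l : ℝ) ≤ k := by exact_mod_cast kl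
      have b1 : ((k : ℝ) + 1) * (k + 2) * ((l + 1) * (l + 2)) * (k + 1) ≤ (k + 2) ^ 5 := by
        calc _ ≤ ((k : ℝ) + 2) * (k + 2) * ((k + 2) * (k + 2)) * (k + 2) := by
              gcongr <;> linarith
          _ = _ := by ring
      have b2 : ((k : ℝ) + 2) ^ 5 ≤ K * ((m : ℝ) ^ ε) ^ 2 * (2 * n / r) ^ ε := by
        refine (hK k).trans ?_
        rw [pow_add, Real.rpow_pow_comm (by positivity) ε k, mul_assoc, mul_comm (_ ^ ε)]
        gcongr
      have e1 : w k * w l / (k + 1) * (((m : ℝ) ^ k) ^ α * ((n : ℝ) ^ l) ^ β)⁻¹ =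
          (((k : ℝ) + 1) * (k + 2) * ((l + 1) * (l + 2)) * (k + 1) *
            (((m : ℝ) ^ k) ^ α * ((n : ℝ) ^ l) ^ β))⁻¹ := by unfold w; field_simp
      have e2 : (K * ((m : ℝ) ^ ε) ^ 2 * (2 * n) ^ (α + β + ε))⁻¹ * r ^ (α + β + ε) =
          (K * ((m : ℝ) ^ ε) ^ 2 * (2 * n / r) ^ ε * ((2 * n / r) ^ α * (2 * n / r) ^ β))⁻¹ := by
        rw [mul_assoc (K * _), ← Real.rpow_add (by positivity), ← Real.rpow_add (by positivity),
          Real.div_rpow (by positivity) r0.le, add_comm ε]
        field_simp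
      rw [e1, e2]
      refine inv_anti₀ (by positivity) (mul_le_mul (b1.trans b2) ?_ (by positivity) (by positivity))
      gcongr
    · simp only [Set.mem_pi, Finset.coe_range, mem_Iio] at hη
      have c1 : |X m (fun t => (η t).1.1) - X m fun t => (ω t).1.1| ≤ r / 2 :=
        X_close hm (d1 η) (d1 ω) (k := k) (fun t ht => by
          have := hη t ht
          split_ifs at this
          · rw [this]
          · exact this) (by linarith)
      have c2 : |X n (fun t => (η t).1.2) - X n fun t => (ω t).1.2| ≤ r / 2 :=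
        X_close hn (d2 η) (d2 ω) (k := l) (fun t ht => by
          have := hη t (by omega)
          rw [if_pos ht] at this; rw [this]) (by linarith)
      rw [mem_preimage, mem_closedBall, EuclideanSpace.dist_eq, Real.sqrt_le_left r0.le]
      simp only [code, Fin.sum_univ_two, Real.dist_eq, Matrix.cons_val_zero, Matrix.cons_val_one]
      have := pow_le_pow_left₀ (abs_nonneg _) c1 2
      have := pow_le_pow_left₀ (abs_nonneg _) c2 2
      nlinarith
  have s1 : (ν.map (code m n D)).support ⊆ range (code m n D) :=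
    support_subset_of_isClosed (isCompact_range cc).isClosed
      ((mem_ae_map_iff cc.aemeasurable (isCompact_range cc).measurableSet).2 (by simp))
  have s2 : ∀ ω, code m n D ω ∈ (ν.map (code m n D)).support := fun ω => by
    obtain ⟨K, K0, hK⟩ := up 1 one_pos
    refine (mem_support_iff_forall _).2 fun V hV => ?_
    obtain ⟨e, e0, he⟩ := nhds_basis_closedBall.mem_iff.1 hV
    have p : 0 < min e 1 := lt_min e0 one_pos
    exact ((ENNReal.ofReal_pos.2 (by positivity)).trans_le (hK ω _ ⟨p, min_le_right _ _⟩)).trans_le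
      (measure_mono ((closedBall_subset_closedBall (min_le_left _ _)).trans he))
  have mem : ∀ ε > 0, α + β + ε ∈ {s | 0 ≤ s ∧ ∃ C > 0, ∀ x ∈ (ν.map (code m n D)).support,
      ∀ r ∈ Ioc (0 : ℝ) 1, ENNReal.ofReal (C * r ^ s) ≤ ν.map (code m n D) (closedBall x r)} :=
    fun ε hε => by
      obtain ⟨K, K0, hK⟩ := up ε hε
      refine ⟨by positivity, K, K0, fun x hx => ?_⟩
      obtain ⟨ω, rfl⟩ := s1 hx
      exact hK ω
  refine le_antisymm (le_of_forall_pos_le_add fun ε hε => csInf_le ⟨0, fun _ h => h.1⟩ (mem ε hε))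
    (le_csInf ⟨_, mem 1 one_pos⟩ ?_)
  rintro s ⟨-, K, K0, hK⟩
  by_contra hs
  push Not at hs
  haveI : IsProbabilityMeasure (ν.map (code m n D)) := isProbabilityMeasure_map cc.aemeasurable
  have key : ∀ l : ℕ, K * ((n : ℝ) ^ (α + β - s)) ^ l ≤ 16 * m ^ α := by
    intro l
    have p : (0 : ℝ) < n ^ l := by positivity
    have p1 : (1 : ℝ) ≤ n ^ l := one_le_pow₀ (by linarith)
    obtain ⟨k, k1, k2⟩ := exists_nat_pow_near p1 (show (1 : ℝ) < m by linarith)
    have kl : l ≤ k := by
      have := (pow_lt_pow_iff_right₀ (show (1 : ℝ) < m by linarith)).1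
        ((pow_le_pow_left₀ (by linarith) n1 l).trans_lt k2)
      omega
    set F := Fintype.piFinset fun t : Fin k => if (t : ℕ) < l then Finset.univ else C.image sec
    set ex : (Fin k → D) → ℕ → D := fun Q t => if h : t < k then Q ⟨t, h⟩ else ⟨d0, hd0⟩
    have cF : F.card = D.card ^ l * C.card ^ (k - l) := by
      rw [Fintype.card_piFinset, ← prod_if _ _ kl, ← Fin.prod_univ_eq_prod_range
        (fun t => if t < l then D.card else C.card)]
      refine Finset.prod_congr rfl fun t _ => ?_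
      split_ifs
      · simp
      · exact Finset.card_image_of_injOn fun a ha b hb h => by rw [← hsec a ha, ← hsec b hb, h]
    set r := ((n : ℝ) ^ l)⁻¹
    have mult : ∀ y, (F.filter fun Q => y ∈ closedBall (code m n D (ex Q)) r).card ≤ 16 := by
      intro y
      have cI : ∀ z : ℤ, (Finset.Icc (z - 2) (z + 1)).card = 4 := fun z => by simp; omega
      rw [show 16 = (Finset.Icc (⌈m ^ k * y 0⌉ - 2) (⌈m ^ k * y 0⌉ + 1) ×ˢ
        Finset.Icc (⌈n ^ l * y 1⌉ - 2) (⌈n ^ l * y 1⌉ + 1)).card by rw [Finset.card_product, cI, cI]]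
      refine Finset.card_le_card_of_injOn (fun Q => ((val m (fun t => (ex Q t).1.1) k : ℤ),
        (val n (fun t => (ex Q t).1.2) l : ℤ))) (fun Q hQ => ?_) fun Q hQ Q' hQ' e => ?_
      · have hy := (Finset.mem_filter.1 hQ).2
        have g : ∀ (u v : ℝ) (a : ℕ), (a : ℝ) ≤ u → u ≤ a + 1 → |v - u| ≤ 1 →
            (a : ℤ) ∈ Finset.Icc (⌈v⌉ - 2) (⌈v⌉ + 1) := fun u v a h1 h2 h3 => by
          rw [abs_le] at h3
          have : ⌈v⌉ ≤ (a : ℤ) + 2 := Int.ceil_le.2 (by push_cast; linarith)
          have : (a : ℤ) - 1 ≤ ⌈v⌉ := by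
            have := Int.le_ceil v
            exact_mod_cast (show ((a : ℤ) : ℝ) - 1 ≤ (⌈v⌉ : ℤ) by push_cast; linarith)
          rw [Finset.mem_Icc]; omega
        have y0 := (PiLp.dist_apply_le y _ 0).trans hy
        have y1 := (PiLp.dist_apply_le y _ 1).trans hy
        simp only [code, Real.dist_eq, Matrix.cons_val_zero, Matrix.cons_val_one] at y0 y1
        refine Finset.mem_coe.2 (Finset.mem_product.2 ⟨g _ _ _ (sand hm (d1 _) k).1 (sand hm (d1 _) k).2 ?_,
          g _ _ _ (sand hn (d2 _) l).1 (sand hn (d2 _) l).2 ?_⟩) <;>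
          rw [← mul_sub, abs_mul, abs_of_pos (by positivity)]
        · exact (mul_le_mul k1 y0 (abs_nonneg _) p.le).trans_eq (mul_inv_cancel₀ p.ne')
        · exact (mul_le_mul_of_nonneg_left y1 p.le).trans_eq (mul_inv_cancel₀ p.ne')
      · simp only [Prod.mk.injEq, Nat.cast_inj] at e
        have e1 := val_inj (d1 _) (d1 _) e.1
        have e2 := val_inj (d2 _) (d2 _) e.2
        funext t
        have f1 := e1 t t.2
        simp only [ex, dif_pos t.2] at f1
        by_cases c : (t : ℕ) < l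
        · have f2 := e2 t c
          simp only [ex, dif_pos t.2] at f2
          exact Subtype.ext (Prod.ext f1 f2)
        · have g1 := Fintype.mem_piFinset.1 (Finset.mem_filter.1 hQ).1 t
          have g2 := Fintype.mem_piFinset.1 (Finset.mem_filter.1 hQ').1 t
          rw [if_neg c] at g1 g2
          obtain ⟨a, ha, a'⟩ := Finset.mem_image.1 g1
          obtain ⟨b, hb, b'⟩ := Finset.mem_image.1 g2
          rw [← a', ← b', hsec a ha, hsec b hb] at f1
          rw [← a', ← b', f1]
    have tot : ∑ Q ∈ F, ν.map (code m n D) (closedBall (code m n D (ex Q)) r) ≤ 16 := by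
      simp only [← lintegral_indicator_one measurableSet_closedBall]
      rw [← lintegral_finsetSum _ fun _ _ => measurable_one.indicator measurableSet_closedBall]
      refine (lintegral_mono (g := fun _ => 16) fun y => ?_).trans (by simp)
      simp only [indicator_apply, Pi.one_apply, Finset.sum_boole]
      exact_mod_cast mult y
    have t2 := (Finset.card_nsmul_le_sum _ _ _ fun Q _ =>
      hK _ (s2 (ex Q)) r ⟨by positivity, inv_le_one_of_one_le₀ p1⟩).trans tot
    rw [nsmul_eq_mul, ← ENNReal.ofReal_natCast, ← ENNReal.ofReal_mul (by positivity),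
      ← ENNReal.ofReal_ofNat, ENNReal.ofReal_le_ofReal_iff (by norm_num), cF] at t2
    push_cast at t2
    rw [cnt k l kl] at t2
    have t3 : ((n : ℝ) ^ l) ^ α ≤ ((m : ℝ) ^ k) ^ α * m ^ α := by
      rw [← Real.mul_rpow (by positivity) (by positivity), ← pow_succ]; gcongr
    rw [Real.rpow_pow_comm (by positivity), sub_eq_add_neg, Real.rpow_add p, Real.rpow_add p,
      Real.rpow_neg p.le, ← Real.inv_rpow p.le]
    calc _ ≤ K * (((m : ℝ) ^ k) ^ α * m ^ α * ((n : ℝ) ^ l) ^ β * r ^ s) := by gcongr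
      _ = ((m : ℝ) ^ k) ^ α * ((n : ℝ) ^ l) ^ β * (K * r ^ s) * m ^ α := by ring
      _ ≤ _ := by gcongr
  obtain ⟨l, hl⟩ := (((tendsto_pow_atTop_atTop_of_one_lt (Real.one_lt_rpow (show (1 : ℝ) < n by linarith)
    (sub_pos.2 hs))).const_mul_atTop K0).eventually_gt_atTop (16 * m ^ α)).exists
  exact absurd (key l) hl.not_ge

end Pool.Agent.Results.MP_4f9d30_an.Full
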